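import Pool.Agent.W993.MC.Asm0
import Pool.Agent.W980.MC.Tr

set_option autoImplicit false

open Filter Topology Pool.Agent.W993.MC

/-!
MP_528be1_nt: unconditional lower bounds for the dimension of the space of alternating multiple
zeta values of weight `w`.
-/

namespace Pool.Agent.Results.MP_528be1_nt.AlternatingDimensionGrowth

/-- For every `w >= 1` the space of alternating multiple zeta values of weight `w` has dimension at
least `w / 2 + 1` (integer part), and the dimension increases by at least one when the weight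
increases by two; all series in the definition converge. -/
theorem result :
    (∀ N w : ℕ, 1 ≤ N → ∀ L : List (ℕ × ℂ), Adm N w L → ∃ v, Tendsto (S L) atTop (𝓝 v)) ∧
    (∀ w : ℕ, 1 ≤ w → ((w / 2 + 1 : ℕ) : Cardinal) ≤ Module.rank ℚ (Zsp 2 w)) ∧
    (∀ w : ℕ, 1 ≤ w → Module.rank ℚ (Zsp 2 w) + 1 ≤ Module.rank ℚ (Zsp 2 (w + 2))) :=
  ⟨fun N w hN L h => conv Asm.hCV N w hN L h, Asm.hLOW Pool.Agent.W980.MC.t_TR,
    Asm.hSTEP Pool.Agent.W980.MC.t_TR⟩

end Pool.Agent.Results.MP_528be1_nt.AlternatingDimensionGrowth
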