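import Pool.Agent.W516.MTD.Main

/-!
# The dimension conjecture for multiple Clausen values and alternating sums

Mixed Tate motives over `ℤ[1/2]` or over the ring of integers of `ℚ(√-3)`, whose periods are
alternating multiple zeta values or multiple Clausen values: in each weight the space of the periods
has the dimension of the space of the motivic periods if and only if the linear relations with
rational coefficients between periods of the same weight are multiplicative, and if and only if they
are stable under the single-valued matrix `p⁻¹ p̄`.  The periods of the simple extensions are `log 2`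
in degree one, `ζ(n)` in odd degree `n ≥ 3` and `i Cl_n(π/3)` in even degree `n`.
-/

set_option autoImplicit false
set_option linter.unusedVariables false

namespace Pool.Agent.Results.MP_528be1_nt.ClausenPeriods

open Pool.Agent.W516.MTZ Pool.Agent.W516.MTH

theorem result (m X : Type) [Fintype m] [DecidableEq m] [Fintype X] [DecidableEq X]
    (M : Motive m X) (p : (Matrix m m ℂ)ˣ) (hp : p ∈ M.gp)
    (hinj : Function.Injective M.deg) (hsmall : ∃ x, M.deg x ≤ 2)
    (hpi : (p : Matrix m m ℂ) M.t M.t = 2 * Real.pi * Complex.I)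
    (hlog : ∀ x, M.deg x = 1 → (p : Matrix m m ℂ) M.o (M.s x) = Real.log 2)
    (hodd : ∀ x, Odd (M.deg x) → M.deg x ≠ 1 →
      (p : Matrix m m ℂ) M.o (M.s x) = riemannZeta (M.deg x))
    (heven : ∀ x, Even (M.deg x) → (p : Matrix m m ℂ) M.o (M.s x) =
      Complex.I * ((∑' k : ℕ, Real.sin (k * Real.pi / 3) / (k : ℝ) ^ M.deg x : ℝ) : ℂ)) :
    (DimensionConjecture M (p : Matrix m m ℂ) ↔ ∀ A B : Matrix m m ℂ,
      Satisfies M (p : Matrix m m ℂ) (p * A) → Satisfies M (p : Matrix m m ℂ) (p * B) →
        Satisfies M (p : Matrix m m ℂ) (p * (A * B))) ∧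
    (DimensionConjecture M (p : Matrix m m ℂ) ↔ ∀ B : Matrix m m ℂ,
      Satisfies M (p : Matrix m m ℂ) B → Satisfies M (p : Matrix m m ℂ)
        (B * ((p⁻¹ : (Matrix m m ℂ)ˣ) * (p : Matrix m m ℂ).map (starRingEnd ℂ)))) :=
  Pool.Agent.W516.MTD.main_sv_gen hp hinj
    (Pool.Agent.W516.MTD.conj_ne_d hpi hlog hodd heven)

end Pool.Agent.Results.MP_528be1_nt.ClausenPeriods
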