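import Pool.Agent.W993.MC.Asm0
import Pool.Agent.W980.MC.Tr

set_option autoImplicit false

open Filter Topology Pool.Agent.W993.MC

/-!
MP_528be1_nt: the double equality of Q1 for the weights one and two, and a lower bound for the
spaces of multiple Clausen values in every weight.
-/

namespace Pool.Agent.Results.MP_528be1_nt.WeightsOneAndTwo

/-- `dim C_w = dim Z_w(2) = F_(w+1)` for `w = 1, 2`, and `dim C_w >= 2` for all `w >= 2`. -/
theorem result :
    (∀ w : ℕ, 1 ≤ w → w ≤ 2 → Module.rank ℚ (Csp w) = (Nat.fib (w + 1) : Cardinal) ∧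
      Module.rank ℚ (Zsp 2 w) = (Nat.fib (w + 1) : Cardinal)) ∧
    (∀ w : ℕ, 2 ≤ w → 2 ≤ Module.rank ℚ (Csp w)) := by
  refine ⟨?_, Asm.hC2.2.2⟩
  intro w h1 h2
  have hZ := Asm.hZ2 Pool.Agent.W980.MC.t_TR
  obtain rfl | rfl : w = 1 ∨ w = 2 := by omega
  · refine ⟨?_, ?_⟩
    · rw [Asm.hC2.1]; norm_num
    · rw [hZ.1]; norm_num
  · refine ⟨?_, ?_⟩
    · rw [Asm.hC2.2.1]; norm_num [Nat.fib]
    · rw [hZ.2]; norm_num [Nat.fib]

end Pool.Agent.Results.MP_528be1_nt.WeightsOneAndTwo
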